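import Mathlib.Topology.Sheaves.Presheaf
import Mathlib.Analysis.Calculus.BumpFunction.SmoothApprox
import Mathlib.MeasureTheory.Function.Jacobian
import Mathlib.Analysis.InnerProductSpace.NormDet
import Mathlib.Topology.UniformSpace.Uniformizable

/-!
Brouwer's fixed point theorem for the cube, by the analytic argument: a compactly supported
continuously differentiable perturbation of the identity has a zero.
-/

set_option autoImplicit false

open Filter Topology Metric MeasureTheory Polynomial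

namespace Pool.Agent.Lib.helper79

variable {n : ℕ}

/-- evaluation of a continuous function at a point, as a ring homomorphism -/
def evAt (z : Fin n → ℝ) : C(Fin n → ℝ, ℝ) →+* ℝ where
  toFun f := f z
  map_one' := rfl
  map_mul' _ _ := rfl
  map_zero' := rfl
  map_add' _ _ := rfl

lemma integral_poly (P : Polynomial C(Fin n → ℝ, ℝ)) :
    ∃ q : Polynomial ℝ, ∀ t : ℝ,
      q.eval t = ∫ z in ball (0 : Fin n → ℝ) 1, P.eval₂ (evAt z) t := by
  refine ⟨∑ i ∈ Finset.range (P.natDegree + 1),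
    C (∫ z in ball (0 : Fin n → ℝ) 1, P.coeff i z) * X ^ i, fun t => ?_⟩
  have hint : ∀ f : C(Fin n → ℝ, ℝ), IntegrableOn f (ball (0 : Fin n → ℝ) 1) := fun f =>
    (f.continuous.continuousOn.integrableOn_compact (isCompact_closedBall 0 1)).mono_set
      ball_subset_closedBall
  simp only [eval₂_eq_sum_range, eval_finsetSum, eval_mul, eval_C, eval_pow, eval_X]
  rw [integral_finsetSum (f := fun i z => evAt z (P.coeff i) * t ^ i) _
    fun i _ => (hint (P.coeff i)).mul_const _]
  refine Finset.sum_congr rfl fun i _ => ?_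
  rw [← integral_mul_const]
  rfl

lemma det_eq (A : (Fin n → ℝ) →L[ℝ] (Fin n → ℝ)) (t : ℝ) :
    (ContinuousLinearMap.id ℝ (Fin n → ℝ) + t • A).det =
      (Matrix.of fun i j : Fin n => (if i = j then (1 : ℝ) else 0) + t * A (Pi.single j 1) i).det := by
  rw [ContinuousLinearMap.det, ← LinearMap.det_toMatrix']
  congr 1
  ext i j
  simp [LinearMap.toMatrix'_apply, Pi.single_apply]

theorem exists_zero_of_contDiff {h : (Fin n → ℝ) → (Fin n → ℝ)} (hh : ContDiff ℝ 1 h)
    (h0 : ∀ z, 1 ≤ ‖z‖ → h z = 0) : ∃ z, z + h z = 0 := by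
  by_contra hcon
  push Not at hcon
  have hc : Continuous h := hh.continuous
  have hd : Differentiable ℝ h := hh.differentiable one_ne_zero
  have hDc : Continuous (fderiv ℝ h) := hh.continuous_fderiv one_ne_zero
  have hcs : HasCompactSupport h := by
    refine HasCompactSupport.intro (isCompact_closedBall (0 : Fin n → ℝ) 1) fun z hz => h0 z ?_
    simp only [mem_closedBall_zero_iff, not_le] at hz
    exact hz.le
  obtain ⟨L, hL⟩ := hh.lipschitzWith_of_hasCompactSupport hcs one_ne_zero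
  -- the squared length of the perturbed identity
  set S : (Fin n → ℝ) → ℝ := fun y => ∑ i, y i ^ 2 with hS
  have hSc : Continuous S := by simp only [hS]; fun_prop
  have hS0 : ∀ y, 0 ≤ S y := fun y => Finset.sum_nonneg fun i _ => sq_nonneg _
  have hSpos : ∀ y, y ≠ 0 → 0 < S y := by
    intro y hy
    obtain ⟨i, hi⟩ := Function.ne_iff.1 hy
    exact lt_of_lt_of_le (sq_pos_of_ne_zero hi)
      (Finset.single_le_sum (f := fun i => y i ^ 2) (fun j _ => sq_nonneg _) (Finset.mem_univ i))
  have hKc := isCompact_closedBall (0 : Fin n → ℝ) 1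
  have hF1c : Continuous fun z => S (z + h z) := by fun_prop
  obtain ⟨a, -, ha⟩ := hKc.exists_isMinOn ⟨0, by simp⟩ hF1c.continuousOn
  obtain ⟨b, -, hb⟩ := hKc.exists_isMaxOn ⟨0, by simp⟩ hF1c.continuousOn
  obtain ⟨b', -, hb'⟩ := hKc.exists_isMaxOn ⟨0, by simp⟩ hSc.continuousOn
  set δ := S (a + h a) with hδ
  have hδ0 : 0 < δ := hSpos _ (hcon a)
  set K := S (b + h b) + S b' + δ with hK
  -- the determinant as a function of `(t, z)`
  set dt : ℝ → (Fin n → ℝ) → ℝ := fun t z =>
    (ContinuousLinearMap.id ℝ (Fin n → ℝ) + t • fderiv ℝ h z).det with hdt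
  have hdtc : Continuous fun p : ℝ × (Fin n → ℝ) => dt p.1 p.2 := by
    simp only [hdt]
    exact ContinuousLinearMap.continuous_det.comp (by fun_prop)
  have hpos : ∀ᶠ t in 𝓝 (0 : ℝ), ∀ z ∈ closedBall (0 : Fin n → ℝ) 1, 0 < dt t z := by
    refine hKc.eventually_forall_of_forall_eventually fun z _ => ?_
    refine continuousAt_const.eventually_lt hdtc.continuousAt ?_
    simp [hdt, ContinuousLinearMap.det]
  have hsmall : ∀ᶠ t : ℝ in 𝓝 (0 : ℝ), |t| * (L : ℝ) < 1 := by
    have h1 : ContinuousAt (fun t : ℝ => |t| * (L : ℝ)) 0 := by fun_prop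
    exact h1.eventually_lt continuousAt_const (by simp)
  -- change of variables for small `t`
  have hcv : ∀ N : ℕ, ∀ᶠ t in 𝓝 (0 : ℝ),
      ∫ z in ball (0 : Fin n → ℝ) 1, (K - S (z + t • h z)) ^ N * dt t z =
        ∫ y in ball (0 : Fin n → ℝ) 1, (K - S y) ^ N := by
    intro N
    filter_upwards [hpos, hsmall] with t h1 h2
    set F : (Fin n → ℝ) → (Fin n → ℝ) := fun z => z + t • h z with hF
    have happ : ApproximatesLinearOn F
        ((ContinuousLinearEquiv.refl ℝ (Fin n → ℝ) : (Fin n → ℝ) ≃L[ℝ] (Fin n → ℝ)) :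
          (Fin n → ℝ) →L[ℝ] (Fin n → ℝ)) Set.univ (‖t‖₊ * L) := by
      intro x _ y _
      have e : F x - F y - (ContinuousLinearEquiv.refl ℝ (Fin n → ℝ) :
          (Fin n → ℝ) →L[ℝ] (Fin n → ℝ)) (x - y) = t • (h x - h y) := by
        simp only [hF, smul_sub]
        simp
        abel
      rw [e, norm_smul, NNReal.coe_mul, coe_nnnorm, mul_assoc]
      exact mul_le_mul_of_nonneg_left (hL.norm_sub_le x y) (norm_nonneg _)
    have hcond : Subsingleton (Fin n → ℝ) ∨ ‖t‖₊ * L <
        ‖((ContinuousLinearEquiv.refl ℝ (Fin n → ℝ)).symm : (Fin n → ℝ) →L[ℝ] (Fin n → ℝ))‖₊⁻¹ := by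
      rcases subsingleton_or_nontrivial (Fin n → ℝ) with h3 | h3
      · exact Or.inl h3
      · right
        have : ‖((ContinuousLinearEquiv.refl ℝ (Fin n → ℝ)).symm :
            (Fin n → ℝ) →L[ℝ] (Fin n → ℝ))‖₊ = 1 := by
          simp
        rw [this, inv_one, ← NNReal.coe_lt_coe]
        simpa using h2
    have hinj : Function.Injective F := Set.injOn_univ.1 (happ.injOn hcond)
    have hsurj : Function.Surjective F := happ.surjective hcond
    have hfix : ∀ z, 1 ≤ ‖z‖ → F z = z := fun z hz => by simp [hF, h0 z hz]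
    have himg : F '' ball 0 1 = ball 0 1 := by
      ext y
      constructor
      · rintro ⟨x, hx, rfl⟩
        by_contra hy
        rw [mem_ball_zero_iff, not_lt] at hy
        have := hinj (hfix _ hy)
        rw [this] at hy
        exact absurd (mem_ball_zero_iff.1 hx) (not_lt.2 hy)
      · intro hy
        obtain ⟨x, rfl⟩ := hsurj y
        refine ⟨x, ?_, rfl⟩
        by_contra hx
        rw [mem_ball_zero_iff, not_lt] at hx
        rw [hfix x hx] at hy
        exact absurd (mem_ball_zero_iff.1 hy) (not_lt.2 hx)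
    have hder : ∀ x ∈ ball (0 : Fin n → ℝ) 1, HasFDerivWithinAt F
        (ContinuousLinearMap.id ℝ (Fin n → ℝ) + t • fderiv ℝ h x) (ball 0 1) x := fun x _ =>
      ((hasFDerivAt_id x).add ((hd x).hasFDerivAt.const_smul t)).hasFDerivWithinAt
    have := integral_image_eq_integral_abs_det_fderiv_smul volume measurableSet_ball hder
      hinj.injOn (fun y => (K - S y) ^ N)
    rw [himg] at this
    rw [this]
    refine setIntegral_congr_fun measurableSet_ball fun z hz => ?_
    have h3 := h1 z (ball_subset_closedBall hz)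
    simp only [smul_eq_mul]
    rw [abs_of_pos h3, mul_comm]
  -- the identity extends to `t = 1`
  have hone : ∀ N : ℕ, ∫ z in ball (0 : Fin n → ℝ) 1, (K - S (z + h z)) ^ N * dt 1 z =
      ∫ y in ball (0 : Fin n → ℝ) 1, (K - S y) ^ N := by
    intro N
    set P : Polynomial C(Fin n → ℝ, ℝ) :=
      (C (ContinuousMap.const _ K) - ∑ i, (C ⟨fun z => z i, by fun_prop⟩ +
        X * C ⟨fun z => h z i, by fun_prop⟩) ^ 2) ^ N *
      (Matrix.of fun i j : Fin n => (if i = j then (1 : Polynomial C(Fin n → ℝ, ℝ)) else 0) +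
        X * C ⟨fun z => fderiv ℝ h z (Pi.single j 1) i, by fun_prop⟩).det with hP
    have hPe : ∀ t z, P.eval₂ (evAt z) t = (K - S (z + t • h z)) ^ N * dt t z := by
      intro t z
      change eval₂RingHom (evAt z) t P = _
      simp only [hP, hdt, map_mul, map_pow, map_sub, map_sum, map_add, RingHom.map_det, det_eq]
      congr 1
      · simp [hS, evAt]
      · congr 1
        ext i j
        by_cases hij : i = j <;> simp [hij, evAt] <;> ring
    obtain ⟨q, hq⟩ := integral_poly P
    have hq' : q = C (∫ y in ball (0 : Fin n → ℝ) 1, (K - S y) ^ N) := by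
      apply Polynomial.eq_of_infinite_eval_eq
      refine infinite_of_mem_nhds (0 : ℝ) ?_
      filter_upwards [hcv N] with t ht
      simp only [hq, hPe, ht, eval_C]
    have := hq 1
    simp only [hPe, one_smul] at this
    rw [← this, hq', eval_C]
  -- estimates
  obtain ⟨D, hD⟩ := hKc.exists_bound_of_continuousOn
    (f := fun z => dt 1 z) (hdtc.comp (Continuous.prodMk_right 1)).continuousOn
  obtain ⟨r, hr0, hr⟩ : ∃ r : ℝ, 0 < r ∧ ∀ y ∈ ball (0 : Fin n → ℝ) r, S y < δ / 2 := by
    have : ∀ᶠ y in 𝓝 (0 : Fin n → ℝ), S y < δ / 2 :=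
      hSc.continuousAt.eventually_lt continuousAt_const (by simp [hS]; positivity)
    exact Metric.eventually_nhds_iff_ball.1 this
  set r' := min r 1 with hr'
  have hr'0 : 0 < r' := lt_min hr0 one_pos
  set v := volume.real (ball (0 : Fin n → ℝ) r') with hv
  have hv0 : 0 < v := ENNReal.toReal_pos (measure_ball_pos _ _ hr'0).ne' measure_ball_lt_top.ne
  set V := volume.real (ball (0 : Fin n → ℝ) 1) with hV
  have hKδ : 0 ≤ K - δ := by simp only [hK]; linarith [hS0 (b + h b), hS0 b']
  have hup : ∀ N : ℕ, ∫ z in ball (0 : Fin n → ℝ) 1, (K - S (z + h z)) ^ N * dt 1 z ≤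
      (K - δ) ^ N * |D| * V := by
    intro N
    refine (le_abs_self _).trans ?_
    rw [← Real.norm_eq_abs]
    refine norm_setIntegral_le_of_norm_le_const measure_ball_lt_top fun z hz => ?_
    have hz' := ball_subset_closedBall hz
    have h1 : δ ≤ S (z + h z) := ha hz'
    have h2 : S (z + h z) ≤ S (b + h b) := hb hz'
    have h3 : 0 ≤ K - S (z + h z) := by simp only [hK]; linarith [hS0 b']
    rw [norm_mul, norm_pow, Real.norm_eq_abs, abs_of_nonneg h3]
    refine mul_le_mul (pow_le_pow_left₀ h3 (by linarith) N) ((hD z hz').trans (le_abs_self D))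
      (norm_nonneg _) (pow_nonneg hKδ N)
  have hlow : ∀ N : ℕ, (K - δ / 2) ^ N * v ≤ ∫ y in ball (0 : Fin n → ℝ) 1, (K - S y) ^ N := by
    intro N
    have hint : IntegrableOn (fun y => (K - S y) ^ N) (ball (0 : Fin n → ℝ) 1) :=
      ((by fun_prop : Continuous fun y => (K - S y) ^ N).continuousOn.integrableOn_compact
        hKc).mono_set ball_subset_closedBall
    have hsub : ball (0 : Fin n → ℝ) r' ⊆ ball 0 1 := ball_subset_ball (min_le_right _ _)
    refine le_trans ?_ (setIntegral_mono_set hint ?_ hsub.eventuallyLE)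
    · refine setIntegral_ge_of_const_le_real measurableSet_ball measure_ball_lt_top.ne
        (fun y hy => ?_) (hint.mono_set hsub)
      have := hr y (ball_subset_ball (min_le_left _ _) hy)
      exact pow_le_pow_left₀ (by linarith) (by linarith) N
    · refine (ae_restrict_iff' measurableSet_ball).2 (Eventually.of_forall fun y hy => ?_)
      have h2 : S y ≤ S b' := hb' (ball_subset_closedBall hy)
      exact pow_nonneg (by simp only [hK]; linarith [hS0 (b + h b)]) N
  have hK2 : 0 < K - δ / 2 := by linarith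
  have hlim : Tendsto (fun N : ℕ => ((K - δ) / (K - δ / 2)) ^ N * (|D| * V)) atTop
      (𝓝 (0 * (|D| * V))) :=
    (tendsto_pow_atTop_nhds_zero_of_lt_one (div_nonneg hKδ hK2.le)
      ((div_lt_one hK2).2 (by linarith))).mul_const _
  rw [zero_mul] at hlim
  obtain ⟨N, hN⟩ := (hlim.eventually_lt_const hv0).exists
  have h5 := (hlow N).trans ((hone N).symm.le.trans (hup N))
  rw [div_pow, div_mul_eq_mul_div, div_lt_iff₀ (pow_pos hK2 N)] at hN
  nlinarith

/-- a continuous map that is uniformly close to the identity on the unit cube has a zero there -/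
theorem exists_zero_of_near_id {Φ : (Fin n → ℝ) → (Fin n → ℝ)} (hΦ : Continuous Φ)
    (hn : ∀ z, ‖z‖ ≤ 1 → ‖Φ z - z‖ ≤ 1 / 4) : ∃ z, ‖z‖ ≤ 1 ∧ Φ z = 0 := by
  by_contra hcon
  push Not at hcon
  have hKc := isCompact_closedBall (0 : Fin n → ℝ) 1
  obtain ⟨a, ha1, ha⟩ := hKc.exists_isMinOn ⟨0, by simp⟩ hΦ.norm.continuousOn
  have hm : 0 < ‖Φ a‖ := norm_pos_iff.2 (hcon a (mem_closedBall_zero_iff.1 ha1))
  set f : (Fin n → ℝ) → (Fin n → ℝ) := fun z => Φ z - z with hf
  have hfc : Continuous f := by fun_prop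
  set ε := min ‖Φ a‖ (1 / 4) with hε
  have hε0 : 0 < ε := lt_min hm (by norm_num)
  obtain ⟨δ, hδ, hu⟩ := Metric.uniformContinuousOn_iff.1
    ((isCompact_closedBall (0 : Fin n → ℝ) 2).uniformContinuousOn_of_continuous hfc.continuousOn)
    (ε / 2) (by positivity)
  obtain ⟨g, hg, hgf⟩ := hfc.exists_contDiff_dist_le_of_forall_mem_ball_dist_le
    (lt_min hδ one_pos)
  have hgf' : ∀ z, ‖z‖ ≤ 1 → ‖g z - f z‖ < ε := by
    intro z hz
    have := hgf z (ε / 2) fun x hx => by
      rw [mem_ball, lt_min_iff] at hx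
      refine (hu x ?_ z ?_ hx.1).le
      · rw [mem_closedBall_zero_iff]
        have h1 := hx.2
        rw [dist_eq_norm] at h1
        linarith [norm_sub_norm_le x z]
      · rw [mem_closedBall_zero_iff]; linarith
    rw [dist_eq_norm] at this
    linarith
  let χ : ContDiffBump (0 : Fin n → ℝ) := ⟨1 / 2, 1, by norm_num, by norm_num⟩
  obtain ⟨z, hz⟩ := exists_zero_of_contDiff (h := fun z => χ z • g z)
    ((χ.contDiff (n := 1)).smul (hg.of_le (by simp))) (fun z hz => by
      rw [χ.zero_of_le_dist (by simpa using hz), zero_smul])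
  by_cases h1 : 1 ≤ ‖z‖
  · rw [χ.zero_of_le_dist (by simpa using h1), zero_smul, add_zero] at hz
    rw [hz, norm_zero] at h1
    linarith
  push Not at h1
  have h2 : ‖g z‖ ≤ 1 / 2 := by
    have h3 := hgf' z h1.le
    have h4 := hn z h1.le
    have h5 : ε ≤ 1 / 4 := min_le_right _ _
    have h6 := norm_sub_norm_le (g z) (f z)
    linarith
  have h7 : ‖z‖ ≤ 1 / 2 := by
    rw [eq_neg_of_add_eq_zero_left hz, norm_neg, norm_smul, Real.norm_eq_abs,
      abs_of_nonneg χ.nonneg]
    nlinarith [χ.le_one (x := z), χ.nonneg (x := z), norm_nonneg (g z)]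
  rw [χ.one_of_mem_closedBall (mem_closedBall_zero_iff.2 h7), one_smul] at hz
  have h8 : g z - f z = -Φ z := by
    rw [eq_neg_of_add_eq_zero_right hz]
    simp only [hf]
    abel
  have h9 := hgf' z h1.le
  rw [h8, norm_neg] at h9
  have h10 : ‖Φ a‖ ≤ ‖Φ z‖ := ha (mem_closedBall_zero_iff.2 h1.le)
  linarith [min_le_left ‖Φ a‖ (1 / 4)]

/-- coordinatewise clamp onto the cube -/
def clamp (z : Fin n → ℝ) : Fin n → ℝ := fun i => max (-1) (min 1 (z i))

lemma clamp_cont : Continuous (clamp : (Fin n → ℝ) → Fin n → ℝ) := by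
  unfold clamp; fun_prop

lemma abs_clamp_le (z : Fin n → ℝ) (i : Fin n) : |clamp z i| ≤ 1 :=
  abs_le.2 ⟨le_max_left _ _, max_le (by norm_num) (min_le_left _ _)⟩

lemma norm_clamp_le (z : Fin n → ℝ) : ‖clamp z‖ ≤ 1 :=
  (pi_norm_le_iff_of_nonneg zero_le_one).2 (abs_clamp_le z)

lemma clamp_eq {z : Fin n → ℝ} (hz : ‖z‖ ≤ 1) : clamp z = z := by
  ext i
  have := abs_le.1 ((norm_le_pi_norm z i).trans hz)
  simp only [clamp]
  rw [min_eq_right this.2, max_eq_right this.1]

/-- version for maps that are only continuous on the cube -/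
theorem exists_zero_of_near_id' {Φ : (Fin n → ℝ) → (Fin n → ℝ)}
    (hΦ : ContinuousOn Φ (closedBall 0 1))
    (hn : ∀ z, ‖z‖ ≤ 1 → ‖Φ z - z‖ ≤ 1 / 4) : ∃ z, ‖z‖ ≤ 1 ∧ Φ z = 0 := by
  obtain ⟨z, hz, h⟩ := exists_zero_of_near_id (Φ := fun z => Φ (clamp z))
    (hΦ.comp_continuous clamp_cont fun z => mem_closedBall_zero_iff.2 (norm_clamp_le z))
    (fun z hz => by rw [clamp_eq hz]; exact hn z hz)
  exact ⟨z, hz, by rwa [clamp_eq hz] at h⟩

/-- Brouwer's fixed point theorem for the cube `[-1,1]^n` (the unit ball of the sup norm) -/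
theorem brouwer_cube {f : (Fin n → ℝ) → (Fin n → ℝ)} (hf : ContinuousOn f (closedBall 0 1))
    (hm : Set.MapsTo f (closedBall 0 1) (closedBall 0 1)) :
    ∃ z ∈ closedBall (0 : Fin n → ℝ) 1, f z = z := by
  have hc : ∀ z : Fin n → ℝ, clamp z ∈ closedBall (0 : Fin n → ℝ) 1 := fun z =>
    mem_closedBall_zero_iff.2 (norm_clamp_le z)
  have hfc : Continuous fun z : Fin n → ℝ => f (clamp ((4 : ℝ) • z)) :=
    hf.comp_continuous (clamp_cont.comp (continuous_const_smul (4 : ℝ))) fun z => hc _
  obtain ⟨z, -, h⟩ := exists_zero_of_near_id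
    (Φ := fun z => z - (1 / 4 : ℝ) • f (clamp ((4 : ℝ) • z)))
    (continuous_id'.sub (hfc.const_smul (1 / 4 : ℝ)))
    (fun z _ => by
      have := mem_closedBall_zero_iff.1 (hm (hc ((4 : ℝ) • z)))
      rw [sub_sub_cancel_left, norm_neg, norm_smul]
      norm_num
      linarith)
  have h1 : (4 : ℝ) • z = f (clamp ((4 : ℝ) • z)) := by
    conv_lhs => rw [sub_eq_zero.1 h]
    rw [smul_smul]; norm_num
  have h2 : ‖(4 : ℝ) • z‖ ≤ 1 := by
    rw [h1]; exact mem_closedBall_zero_iff.1 (hm (hc _))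
  rw [clamp_eq h2] at h1
  exact ⟨_, mem_closedBall_zero_iff.2 h2, h1.symm⟩

end Pool.Agent.Lib.helper79
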