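import Mathlib

/-! A point of a complex affine algebraic set that is isolated in the classical topology is
isolated in the Zariski topology. -/

namespace Pool.Agent.Lib.H79Iso

open MvPolynomial Filter Topology

theorem root_bound {s : ℕ} (ν : Polynomial (MvPolynomial (Fin s) ℂ)) (hν : ν.Monic)
    (y0 : Fin s → ℂ) : ∃ B : ℝ, ∀ y : Fin s → ℂ, ‖y - y0‖ ≤ 1 → ∀ z : ℂ,
      (ν.map (eval y)).IsRoot z → ‖z‖ ≤ B := by
  have hc : ∀ k, ∃ B : ℝ, ∀ y ∈ Metric.closedBall y0 1, ‖eval y (ν.coeff k)‖ ≤ B := fun k =>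
    (isCompact_closedBall y0 1).exists_bound_of_continuousOn
      (MvPolynomial.continuous_eval (ν.coeff k)).continuousOn
  choose B hB using hc
  refine ⟨(∑ k ∈ Finset.range ν.natDegree, |B k|) + 1, fun y hy z hz => ?_⟩
  have hm : (ν.map (eval y)).Monic := hν.map _
  have h1 := hz.norm_lt_cauchyBound hm.ne_zero
  have h2 : ((Polynomial.cauchyBound (ν.map (eval y)) : NNReal) : ℝ) ≤
      (∑ k ∈ Finset.range ν.natDegree, |B k|) + 1 := by
    unfold Polynomial.cauchyBound
    rw [hm.leadingCoeff, nnnorm_one, div_one, hν.natDegree_map, NNReal.coe_add, NNReal.coe_one]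
    have h0 : (0 : ℝ) ≤ ∑ k ∈ Finset.range ν.natDegree, |B k| :=
      Finset.sum_nonneg fun k _ => abs_nonneg _
    have h3 : (Finset.range ν.natDegree).sup (fun k => ‖(ν.map (eval y)).coeff k‖₊) ≤
        (⟨∑ k ∈ Finset.range ν.natDegree, |B k|, h0⟩ : NNReal) := by
      refine Finset.sup_le fun k hk => ?_
      rw [← NNReal.coe_le_coe, coe_nnnorm, Polynomial.coeff_map]
      refine (hB k y (by simpa [dist_eq_norm] using hy)).trans ((le_abs_self _).trans ?_)
      exact Finset.single_le_sum (f := fun k => |B k|) (fun k _ => abs_nonneg _) hk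
    exact add_le_add_left (NNReal.coe_le_coe.mpr h3) 1
  have h5 := NNReal.coe_lt_coe.mpr h1
  rw [coe_nnnorm] at h5
  linarith

theorem iso_prime {n : ℕ} (p : Ideal (MvPolynomial (Fin n) ℂ)) [hp : p.IsPrime]
    (x0 : Fin n → ℂ) (h0 : ∀ P ∈ p, eval x0 P = 0)
    (hiso : ∀ᶠ x in 𝓝[≠] x0, ∃ P ∈ p, eval x P ≠ 0) :
    ∀ x : Fin n → ℂ, (∀ P ∈ p, eval x P = 0) → x = x0 := by
  classical
  obtain ⟨s, -, g, hginj, hgint⟩ := exists_integral_inj_algHom_of_quotient p hp.ne_top
  let : Algebra (MvPolynomial (Fin s) ℂ) (MvPolynomial (Fin n) ℂ ⧸ p) := g.toRingHom.toAlgebra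
  have : Algebra.IsIntegral (MvPolynomial (Fin s) ℂ) (MvPolynomial (Fin n) ℂ ⧸ p) := ⟨fun a => hgint a⟩
  have : FaithfulSMul (MvPolynomial (Fin s) ℂ) (MvPolynomial (Fin n) ℂ ⧸ p) := (faithfulSMul_iff_algebraMap_injective (MvPolynomial (Fin s) ℂ) (MvPolynomial (Fin n) ℂ ⧸ p)).mpr hginj
  have hmk : ∀ a : (MvPolynomial (Fin n) ℂ ⧸ p), ∃ P, Ideal.Quotient.mk p P = a := Ideal.Quotient.mk_surjective
  choose G hG using fun j : Fin s => hmk (g (X j))
  let π : (Fin n → ℂ) → Fin s → ℂ := fun x j => eval x (G j)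
  have hπ : Continuous π := continuous_pi fun j => MvPolynomial.continuous_eval (G j)
  let φ : ∀ x : Fin n → ℂ, (∀ P ∈ p, eval x P = 0) → (MvPolynomial (Fin n) ℂ ⧸ p) →+* ℂ := fun x hx =>
    Ideal.Quotient.lift p (eval x) hx
  have hφ : ∀ x hx P, φ x hx (Ideal.Quotient.mk p P) = eval x P := fun x hx P => rfl
  have hφg : ∀ x hx (r : (MvPolynomial (Fin s) ℂ)), φ x hx (g r) = eval (π x) r := by
    intro x hx r
    have : (φ x hx).comp g.toRingHom = eval (π x) := by
      refine MvPolynomial.ringHom_ext (fun c => ?_) (fun j => ?_)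
      · have : g (C c) = Ideal.Quotient.mk p (C c) := g.commutes c
        change φ x hx (g (C c)) = _
        rw [this, hφ, eval_C, eval_C]
      · simp only [RingHom.comp_apply, eval_X]
        change φ x hx (g (X j)) = _
        rw [← hG j, hφ]
    exact RingHom.congr_fun this r
  have hev : ∀ x hx (a : (MvPolynomial (Fin n) ℂ ⧸ p)) (ν : Polynomial (MvPolynomial (Fin s) ℂ)),
      φ x hx (Polynomial.aeval a ν) = (ν.map (eval (π x))).eval (φ x hx a) := by
    intro x hx a ν
    rw [Polynomial.aeval_def, Polynomial.hom_eval₂, Polynomial.eval_map]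
    congr 1
    exact RingHom.ext fun r => hφg x hx r
  -- monic equations of the coordinates
  choose ν hν hν0 using fun i : Fin n =>
    (Algebra.IsIntegral.isIntegral (R := (MvPolynomial (Fin s) ℂ)) (Ideal.Quotient.mk p (X i) : (MvPolynomial (Fin n) ℂ ⧸ p)))
  have hroot : ∀ x, (∀ P ∈ p, eval x P = 0) → ∀ i, ((ν i).map (eval (π x))).IsRoot (x i) := by
    intro x hx i
    have h1 := hev x hx (Ideal.Quotient.mk p (X i)) (ν i)
    rw [Polynomial.aeval_def, hν0 i, map_zero] at h1
    have h2 : φ x hx (Ideal.Quotient.mk p (X i)) = x i := by rw [hφ, eval_X]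
    rw [h2] at h1
    exact h1.symm
  set y0 := π x0 with hy0
  have hfin : {x : Fin n → ℂ | (∀ P ∈ p, eval x P = 0) ∧ π x = y0}.Finite := by
    refine (Set.Finite.pi (t := fun i => {z | ((ν i).map (eval y0)).IsRoot z}) fun i =>
      Polynomial.finite_setOfPred_isRoot ((hν i).map _).ne_zero).subset ?_
    rintro x ⟨hx, hx2⟩ i -
    have := hroot x hx i
    rwa [hx2] at this
  -- a polynomial separating `x0` from the rest of its fibre
  obtain ⟨a, ha0, ha⟩ : ∃ a : MvPolynomial (Fin n) ℂ, eval x0 a ≠ 0 ∧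
      ∀ x, (∀ P ∈ p, eval x P = 0) → π x = y0 → x ≠ x0 → eval x a = 0 := by
    have hsep : ∀ x : Fin n → ℂ, ∃ b : MvPolynomial (Fin n) ℂ,
        eval x0 b ≠ 0 ∧ (x ≠ x0 → eval x b = 0) := by
      intro x
      by_cases hx : x = x0
      · exact ⟨1, by simp, fun h => (h hx).elim⟩
      · obtain ⟨i, hi⟩ := Function.ne_iff.mp hx
        exact ⟨X i - C (x i), by simpa [sub_eq_zero] using hi.symm, fun _ => by simp⟩
    choose b hb0 hb using hsep
    refine ⟨∏ x ∈ hfin.toFinset, b x, ?_, fun x hx h1 h2 => ?_⟩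
    · rw [map_prod]; exact Finset.prod_ne_zero_iff.mpr fun x _ => hb0 x
    · rw [map_prod]
      exact Finset.prod_eq_zero (i := x) (by simp [h1]; exact hx) (hb x h2)
  set τ0 := eval x0 a with hτ0
  set a' : (MvPolynomial (Fin n) ℂ ⧸ p) := Ideal.Quotient.mk p a with ha'
  have hint : IsIntegral (MvPolynomial (Fin s) ℂ) a' := Algebra.IsIntegral.isIntegral a'
  set μ := minpoly (MvPolynomial (Fin s) ℂ) a' with hμ
  have hμm : μ.Monic := minpoly.monic hint
  have hφa : ∀ x hx, φ x hx a' = eval x a := fun x hx => hφ x hx a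
  -- every root of `μ(y, ·)` is the value of `a` at a point over `y`
  have hlift : ∀ (y : Fin s → ℂ) (τ : ℂ), (μ.map (eval y)).IsRoot τ →
      ∃ x, (∀ P ∈ p, eval x P = 0) ∧ π x = y ∧ eval x a = τ := by
    intro y τ hτ
    let ψ : Polynomial (MvPolynomial (Fin s) ℂ) →+* ℂ := Polynomial.eval₂RingHom (eval y) τ
    have hψs : Function.Surjective ψ := fun c => ⟨Polynomial.C (C c), by simp [ψ]⟩
    have : (RingHom.ker ψ).IsMaximal := RingHom.ker_isMaximal_of_surjective ψ hψs
    let e : Polynomial (MvPolynomial (Fin s) ℂ) →+* (MvPolynomial (Fin n) ℂ ⧸ p) := (Polynomial.aeval a' : Polynomial (MvPolynomial (Fin s) ℂ) →ₐ[(MvPolynomial (Fin s) ℂ)] (MvPolynomial (Fin n) ℂ ⧸ p)).toRingHom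
    let : Algebra (Polynomial (MvPolynomial (Fin s) ℂ)) (MvPolynomial (Fin n) ℂ ⧸ p) := e.toAlgebra
    have : IsScalarTower (MvPolynomial (Fin s) ℂ) (Polynomial (MvPolynomial (Fin s) ℂ)) (MvPolynomial (Fin n) ℂ ⧸ p) := IsScalarTower.of_algebraMap_eq fun r => by
      change algebraMap (MvPolynomial (Fin s) ℂ) (MvPolynomial (Fin n) ℂ ⧸ p) r = Polynomial.aeval a' (Polynomial.C r)
      simp
    have : Algebra.IsIntegral (Polynomial (MvPolynomial (Fin s) ℂ)) (MvPolynomial (Fin n) ℂ ⧸ p) := Algebra.IsIntegral.tower_top (MvPolynomial (Fin s) ℂ)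
    obtain ⟨Q, hQ, hQc⟩ := Ideal.exists_ideal_over_maximal_of_isIntegral (S := (MvPolynomial (Fin n) ℂ ⧸ p))
      (RingHom.ker ψ) (by
        intro f hf
        have h1 : Polynomial.aeval a' f = 0 := hf
        obtain ⟨q, rfl⟩ := minpoly.isIntegrallyClosed_dvd hint h1
        rw [RingHom.mem_ker, map_mul]
        have : ψ μ = 0 := by
          have h2 : (μ.map (eval y)).eval τ = 0 := hτ
          rw [Polynomial.eval_map] at h2
          exact h2
        rw [this, zero_mul])
    have hQ' : (Q.comap (Ideal.Quotient.mk p)).IsMaximal :=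
      Ideal.comap_isMaximal_of_surjective _ Ideal.Quotient.mk_surjective
    obtain ⟨x, hx⟩ := isMaximal_iff_eq_vanishingIdeal_singleton.mp hQ'
    have hmem : ∀ P, Ideal.Quotient.mk p P ∈ Q ↔ eval x P = 0 := by
      intro P
      rw [← Ideal.mem_comap, hx, mem_vanishingIdeal_singleton_iff]
      rfl
    have hxp : ∀ P ∈ p, eval x P = 0 := fun P hP => (hmem P).mp (by
      rw [Ideal.Quotient.eq_zero_iff_mem.mpr hP]; exact Q.zero_mem)
    have hkey : ∀ f : Polynomial (MvPolynomial (Fin s) ℂ), ψ f = 0 → φ x hxp (Polynomial.aeval a' f) = 0 := by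
      intro f hf
      have h1 : f ∈ Q.comap (algebraMap (Polynomial (MvPolynomial (Fin s) ℂ)) (MvPolynomial (Fin n) ℂ ⧸ p)) := by rw [hQc]; exact hf
      obtain ⟨P, hP⟩ := hmk (Polynomial.aeval a' f)
      have h2 : Ideal.Quotient.mk p P ∈ Q := by rw [hP]; exact h1
      rw [← hP]
      exact (hmem P).mp h2
    refine ⟨x, hxp, funext fun j => ?_, ?_⟩
    · have := hkey (Polynomial.C (X j - C (y j))) (by simp [ψ])
      rw [hev] at this
      simpa [sub_eq_zero] using this
    · have := hkey (Polynomial.X - Polynomial.C (C τ)) (by simp [ψ])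
      rw [hev, hφa] at this
      simpa [sub_eq_zero] using this
  have hμ0 : (μ.map (eval y0)).eval τ0 = 0 := by
    have h1 := hev x0 h0 a' μ
    rw [minpoly.aeval, map_zero, hφa] at h1
    exact h1.symm
  rcases Nat.eq_zero_or_pos s with hs | hs
  · -- dimension zero
    subst hs
    intro x hx
    by_contra hne
    have h1 : eval x a = 0 := ha x hx (Subsingleton.elim _ _) hne
    have hfield : IsField (MvPolynomial (Fin 0) ℂ) := by
      have e := MvPolynomial.isEmptyAlgEquiv ℂ (Fin 0)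
      exact MulEquiv.isField (Field.toIsField ℂ) e.toMulEquiv
    have hAf : IsField (MvPolynomial (Fin n) ℂ ⧸ p) := (Algebra.IsIntegral.isField_iff_isField hginj).mp hfield
    have ha0' : a' ≠ 0 := by
      intro h
      have := hφa x0 h0
      rw [h, map_zero] at this
      exact ha0 this.symm
    obtain ⟨c, hc⟩ := hAf.mul_inv_cancel ha0'
    have := congrArg (φ x hx) hc
    rw [map_mul, hφa, h1, zero_mul, map_one] at this
    exact zero_ne_one this
  · exfalso
    have : Nonempty (Fin s) := ⟨⟨0, hs⟩⟩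
    obtain ⟨r, hr, hball⟩ := Metric.mem_nhdsWithin_iff.mp hiso
    choose B hB using fun i => root_bound (ν i) (hν i) y0
    let K : Set (Fin n → ℂ) := {x | (∀ P ∈ p, eval x P = 0) ∧ ‖π x - y0‖ ≤ 1 ∧
      r ≤ dist x x0 ∧ ‖τ0‖ / 2 ≤ ‖eval x a‖}
    have hKc : IsClosed K := by
      have h1 : IsClosed {x : Fin n → ℂ | ∀ P ∈ p, eval x P = 0} := by
        simp only [Set.ofPred_forall]
        exact isClosed_iInter fun P => isClosed_iInter fun _ =>
          isClosed_eq (MvPolynomial.continuous_eval P) continuous_const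
      have h2 : IsClosed {x : Fin n → ℂ | ‖π x - y0‖ ≤ 1} :=
        isClosed_le (by fun_prop) continuous_const
      have h3 : IsClosed {x : Fin n → ℂ | r ≤ dist x x0} :=
        isClosed_le continuous_const (by fun_prop)
      have h4 : IsClosed {x : Fin n → ℂ | ‖τ0‖ / 2 ≤ ‖eval x a‖} :=
        isClosed_le continuous_const (MvPolynomial.continuous_eval a).norm
      exact h1.inter (h2.inter (h3.inter h4))
    have hK : IsCompact K := by
      refine Metric.isCompact_of_isClosed_isBounded hKc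
        ((Metric.isBounded_closedBall (x := 0) (r := ∑ i, |B i|)).subset fun x hx => ?_)
      rw [mem_closedBall_zero_iff, pi_norm_le_iff_of_nonneg
        (Finset.sum_nonneg fun i _ => abs_nonneg _)]
      intro i
      exact (hB i _ hx.2.1 _ (hroot x hx.1 i)).trans ((le_abs_self _).trans
        (Finset.single_le_sum (f := fun i => |B i|) (fun i _ => abs_nonneg _)
          (Finset.mem_univ i)))
    have hτp : 0 < ‖τ0‖ := norm_pos_iff.mpr ha0
    have hy0K : y0 ∉ π '' K := by
      rintro ⟨x, hx, hxy⟩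
      have hne : x ≠ x0 := by
        rintro rfl
        have := hx.2.2.1
        rw [dist_self] at this
        linarith
      have := hx.2.2.2
      rw [ha x hx.1 hxy hne, norm_zero] at this
      linarith
    have h1 : ∀ᶠ y in 𝓝 y0, y ∉ π '' K := (hK.image hπ).isClosed.isOpen_compl.mem_nhds hy0K
    have h2 : ∀ᶠ y in 𝓝 y0, ‖y - y0‖ ≤ 1 := by
      filter_upwards [Metric.closedBall_mem_nhds y0 one_pos] with y hy
      simpa [dist_eq_norm] using hy
    have hcont : Continuous fun y : Fin s → ℂ => (μ.map (eval y)).eval τ0 := by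
      have : (fun y : Fin s → ℂ => (μ.map (eval y)).eval τ0) =
          fun y => eval y (μ.eval (C τ0)) := by
        funext y
        rw [Polynomial.eval_map, ← Polynomial.eval₂_at_apply]
        simp
      rw [this]
      exact MvPolynomial.continuous_eval _
    have h3 : ∀ᶠ y in 𝓝 y0, ‖(μ.map (eval y)).eval τ0‖ < (‖τ0‖ / 2) ^ μ.natDegree := by
      refine hcont.norm.continuousAt.eventually_lt continuousAt_const ?_
      simp only [hμ0, norm_zero]
      positivity
    obtain ⟨y, ⟨hy1, hy2, hy3⟩, hy4⟩ :=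
      (((h1.and (h2.and h3)).filter_mono nhdsWithin_le_nhds).and
        (self_mem_nhdsWithin (a := y0) (s := {y0}ᶜ))).exists
    have hm : (μ.map (eval y)).Monic := hμm.map _
    have hsp := IsAlgClosed.splits (μ.map (eval y))
    have hroots : ∀ τ ∈ (μ.map (eval y)).roots, ‖τ0‖ / 2 ≤ ‖τ0 - τ‖ := by
      intro τ hτ
      obtain ⟨x, hx, hxy, hxa⟩ := hlift y τ (Polynomial.isRoot_of_mem_roots hτ)
      have hne : x ≠ x0 := by
        rintro rfl
        exact hy4 hxy.symm
      have hr' : r ≤ dist x x0 := by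
        by_contra hlt
        obtain ⟨P, hP, hP0⟩ := hball ⟨Metric.mem_ball.mpr (not_le.mp hlt), hne⟩
        exact hP0 (hx P hP)
      have hlt : ‖τ‖ < ‖τ0‖ / 2 := by
        by_contra hge
        exact hy1 ⟨x, ⟨hx, by rwa [hxy], hr', by rw [hxa]; exact not_lt.mp hge⟩, hxy⟩
      have := norm_sub_norm_le τ0 τ
      linarith
    have hprod : (‖τ0‖ / 2) ^ μ.natDegree ≤ ‖(μ.map (eval y)).eval τ0‖ := by
      rw [hsp.eval_eq_prod_roots_of_monic hm, ← hμm.natDegree_map (eval y),
        hsp.natDegree_eq_card_roots]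
      generalize (μ.map (eval y)).roots = t at hroots
      induction t using Multiset.induction_on with
      | empty => simp
      | cons c t ih =>
        rw [Multiset.card_cons, Multiset.map_cons, Multiset.prod_cons, norm_mul, pow_succ']
        exact mul_le_mul (hroots c (Multiset.mem_cons_self _ _))
          (ih fun τ hτ => hroots τ (Multiset.mem_cons_of_mem hτ)) (by positivity) (norm_nonneg _)
    linarith

/-- A classically isolated common zero of a family of polynomials is cut off from the other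
common zeros by a polynomial. -/
theorem iso {n : ℕ} (S : Set (MvPolynomial (Fin n) ℂ)) (x0 : Fin n → ℂ)
    (hiso : ∀ᶠ x in 𝓝[≠] x0, ∃ P ∈ S, eval x P ≠ 0) :
    ∃ b : MvPolynomial (Fin n) ℂ, eval x0 b ≠ 0 ∧
      ∀ x, (∀ P ∈ S, eval x P = 0) → x ≠ x0 → eval x b = 0 := by
  classical
  have hfin := Ideal.finite_minimalPrimes_of_isNoetherianRing _ (Ideal.span S)
  have hb : ∀ p : Ideal (MvPolynomial (Fin n) ℂ), ∃ b : MvPolynomial (Fin n) ℂ,
      eval x0 b ≠ 0 ∧ (p ∈ (Ideal.span S).minimalPrimes →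
        ∀ x, (∀ P ∈ p, eval x P = 0) → x ≠ x0 → eval x b = 0) := by
    intro p
    by_cases h : ∀ P ∈ p, eval x0 P = 0
    · refine ⟨1, by simp, fun hp x hx hne => ?_⟩
      have : p.IsPrime := hp.1.1
      refine (hne (iso_prime p x0 h (hiso.mono ?_) x hx)).elim
      rintro y ⟨P, hP, hP0⟩
      exact ⟨P, hp.1.2 (Ideal.subset_span hP), hP0⟩
    · push Not at h
      obtain ⟨P, hP, hP0⟩ := h
      exact ⟨P, hP0, fun _ x hx _ => hx P hP⟩
  choose b hb0 hb using hb
  refine ⟨∏ p ∈ hfin.toFinset, b p, ?_, fun x hx hne => ?_⟩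
  · rw [map_prod]; exact Finset.prod_ne_zero_iff.mpr fun p _ => hb0 p
  · have : (RingHom.ker (eval x : MvPolynomial (Fin n) ℂ →+* ℂ)).IsPrime := RingHom.ker_isPrime _
    obtain ⟨p, hp, hle⟩ := Ideal.exists_minimalPrimes_le (I := Ideal.span S)
      (J := RingHom.ker (eval x : MvPolynomial (Fin n) ℂ →+* ℂ))
      (Ideal.span_le.mpr fun P hP => hx P hP)
    rw [map_prod]
    exact Finset.prod_eq_zero (i := p) (by simpa using hp) (hb p hp x (fun P hP => hle hP) hne)

end Pool.Agent.Lib.H79Iso
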